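import Mathlib

/-!
# The divisibility poset of the ideal class monoid determines the numerical semigroup
-/

set_option autoImplicit false

namespace Pool.Agent.Results.MP_6e7624_al.PosetDeterminesSemigroup

open Set
open scoped Pointwise

/-- The ideals of `S` with minimum `0`: the sets `E ⊆ ℕ` with `E + S ⊆ E` and `0 ∈ E`. -/
def I0 (S : AddSubmonoid ℕ) : Set (Set ℕ) := {E | 0 ∈ E ∧ ∀ e ∈ E, ∀ s ∈ S, e + s ∈ E}

/-- The divisibility order on `I0 S`: `I ≼ J` if `J = I + K` for some `K` in `I0 S`. -/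
def Le (S : AddSubmonoid ℕ) (I J : Set ℕ) : Prop := ∃ K ∈ I0 S, J = I + K

variable {S S₁ S₂ : AddSubmonoid ℕ}

theorem sub_of_mem {E : Set ℕ} (hE : E ∈ I0 S) : (S : Set ℕ) ⊆ E := by
  intro s hs
  have := hE.2 0 hE.1 s hs
  rwa [zero_add] at this

theorem compl_finite (hS : ((S : Set ℕ)ᶜ).Finite) {E : Set ℕ} (hE : E ∈ I0 S) : (Eᶜ).Finite :=
  hS.subset (compl_subset_compl.2 (sub_of_mem hE))

theorem le_sub {I J : Set ℕ} (h : Le S I J) : I ⊆ J := by
  obtain ⟨K, hK, rfl⟩ := h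
  intro i hi
  exact ⟨i, hi, 0, hK.1, by simp⟩

/-- adding the largest gap is a step in the divisibility order -/
theorem step (hS : ((S : Set ℕ)ᶜ).Finite) {E : Set ℕ} (hE : E ∈ I0 S) (hne : (Eᶜ).Nonempty) :
    ∃ m ∈ Eᶜ, insert m E ∈ I0 S ∧ Le S E (insert m E) := by
  obtain ⟨m, hmax⟩ := (compl_finite hS hE).exists_maximal hne
  have hm : m ∈ Eᶜ := hmax.prop
  have hgt : ∀ n, m < n → n ∈ E := by
    intro n hn
    by_contra h
    have := hmax.2 (y := n) h hn.le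
    omega
  refine ⟨m, hm, ⟨Or.inr hE.1, ?_⟩, ?_⟩
  · rintro e (rfl | he) s hs
    · rcases Nat.eq_zero_or_pos s with rfl | h
      · left; simp
      · right; exact hgt _ (by omega)
    · right; exact hE.2 e he s hs
  · refine ⟨(S : Set ℕ) ∪ {n | m ≤ n}, ⟨Or.inl S.zero_mem, ?_⟩, ?_⟩
    · rintro e (he | he) s hs
      · left; exact S.add_mem he hs
      · right; exact le_trans he (Nat.le_add_right _ _)
    · ext n
      constructor
      · rintro (rfl | hn)
        · exact ⟨0, hE.1, n, Or.inr (show n ≤ n from le_rfl), by simp⟩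
        · exact ⟨n, hn, 0, Or.inl S.zero_mem, by simp⟩
      · rintro ⟨e, he, s, hs | hs, rfl⟩
        · right; exact hE.2 e he s hs
        · rcases Nat.lt_or_ge m (e + s) with h | h
          · right; exact hgt _ h
          · left
            have : m ≤ s := hs
            show e + s = m
            omega

theorem ncard_insert {E : Set ℕ} (hfin : (Eᶜ).Finite) {m : ℕ} (hm : m ∈ Eᶜ) :
    ((insert m E)ᶜ).ncard + 1 = (Eᶜ).ncard := by
  have : (insert m E)ᶜ = Eᶜ \ {m} := by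
    ext n
    simp only [mem_compl_iff, mem_insert_iff, mem_sdiff, mem_singleton_iff]
    tauto
  rw [this, ncard_sdiff_singleton_add_one hm hfin]

/-- order embeddings do not decrease the number of gaps -/
theorem colength_le (h₁ : ((S₁ : Set ℕ)ᶜ).Finite) (h₂ : ((S₂ : Set ℕ)ᶜ).Finite)
    (f : I0 S₁ → I0 S₂) (hinj : Function.Injective f)
    (hf : ∀ I J : I0 S₁, Le S₁ I.1 J.1 → Le S₂ (f I).1 (f J).1) :
    ∀ (n : ℕ) (E : I0 S₁), (E.1ᶜ).ncard = n → n ≤ ((f E).1ᶜ).ncard := by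
  intro n
  induction n with
  | zero => intro E _; exact Nat.zero_le _
  | succ n ih =>
    intro E hE
    have hne : (E.1ᶜ).Nonempty := by
      apply nonempty_of_ncard_ne_zero
      omega
    obtain ⟨m, hm, hmem, hle⟩ := step h₁ E.2 hne
    have hc := ncard_insert (compl_finite h₁ E.2) hm
    have h3 := ih ⟨_, hmem⟩ (show ((insert m E.1)ᶜ).ncard = n by omega)
    have hsub := le_sub (hf E ⟨_, hmem⟩ hle)
    have hneq : (f E).1 ≠ (f ⟨_, hmem⟩).1 := by
      intro h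
      have h4 := congrArg Subtype.val (hinj (Subtype.ext h))
      apply hm
      have h5 : m ∈ insert m E.1 := mem_insert _ _
      rw [← show E.1 = insert m E.1 from h4] at h5
      exact h5
    have hss : (f ⟨_, hmem⟩).1ᶜ ⊂ (f E).1ᶜ :=
      ssubset_iff_subset_ne.2 ⟨compl_subset_compl.2 hsub, fun h => hneq (compl_injective h).symm⟩
    have h6 := ncard_lt_ncard hss (compl_finite h₂ (f E).2)
    omega

theorem I0_finite (hS : ((S : Set ℕ)ᶜ).Finite) : (I0 S).Finite := by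
  have h : (I0 S) ⊆ compl '' (𝒫 ((S : Set ℕ)ᶜ)) := by
    intro E hE
    exact ⟨Eᶜ, compl_subset_compl.2 (sub_of_mem hE), compl_compl E⟩
  exact (hS.powerset.image _).subset h

/-- the comparison of the numbers of ideals with `k` gaps -/
theorem key (h₁ : ((S₁ : Set ℕ)ᶜ).Finite) (h₂ : ((S₂ : Set ℕ)ᶜ).Finite) (x : ℕ) (hx₁ : x ∈ S₁)
    (hx₂ : x ∉ S₂) (hlt : ∀ y < x, (y ∈ S₁ ↔ y ∈ S₂))
    (hcard : ∀ k, {E | E ∈ I0 S₁ ∧ (Eᶜ).ncard = k}.ncard = {E | E ∈ I0 S₂ ∧ (Eᶜ).ncard = k}.ncard) :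
    False := by
  classical
  set A : Finset ℕ := (Finset.range x).filter (· ∈ S₁) with hA
  set k := A.card with hk
  have hss : {E | E ∈ I0 S₁ ∧ (Eᶜ).ncard = k} ⊂ {E | E ∈ I0 S₂ ∧ (Eᶜ).ncard = k} := by
    refine ssubset_iff_exists.2 ⟨?_, ?_⟩
    · rintro E ⟨hE, hc⟩
      have hb : ∀ b ∉ E, b < x := by
        intro b hb
        by_contra hge
        push Not at hge
        have h3 : ((insert x A).image (fun s => b - s) : Set ℕ) ⊆ Eᶜ := by
          intro z hz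
          simp only [Finset.coe_image, mem_image, Finset.mem_coe, Finset.mem_insert, hA,
            Finset.mem_filter, Finset.mem_range] at hz
          obtain ⟨s, hs, rfl⟩ := hz
          have hsS : s ∈ S₁ := by
            rcases hs with rfl | hs
            · exact hx₁
            · exact hs.2
          have hsx : s ≤ b := by
            rcases hs with rfl | hs
            · exact hge
            · omega
          intro hmem
          apply hb
          have := hE.2 _ hmem s hsS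
          rwa [Nat.sub_add_cancel hsx] at this
        have h4 := ncard_le_ncard h3 (compl_finite h₁ hE)
        rw [ncard_coe_finset, Finset.card_image_of_injOn, Finset.card_insert_of_notMem] at h4
        · omega
        · simp [hA]
        · intro s hs t ht hst
          simp only [Finset.coe_insert, mem_insert_iff, Finset.mem_coe, hA, Finset.mem_filter,
            Finset.mem_range] at hs ht
          have : b - s = b - t := hst
          have hs' : s ≤ b := by rcases hs with rfl | hs <;> omega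
          have ht' : t ≤ b := by rcases ht with rfl | ht <;> omega
          omega
      refine ⟨⟨hE.1, ?_⟩, hc⟩
      intro e he s hs
      by_contra hn
      have h5 := hb _ hn
      exact hn (hE.2 e he s ((hlt s (by omega)).2 hs))
    · refine ⟨{n | ¬ ∃ s ∈ S₂, n + s = x}, ⟨⟨?_, ?_⟩, ?_⟩, ?_⟩
      · rintro ⟨s, hs, h⟩
        rw [zero_add] at h
        exact hx₂ (h ▸ hs)
      · rintro e he t ht ⟨s, hs, h⟩
        exact he ⟨t + s, S₂.add_mem ht hs, by omega⟩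
      · have : {n | ¬ ∃ s ∈ S₂, n + s = x}ᶜ = ((A.image (fun s => x - s) : Finset ℕ) : Set ℕ) := by
          ext n
          simp only [mem_compl_iff, mem_ofPred_eq, not_not, Finset.coe_image, mem_image,
            Finset.mem_coe, hA, Finset.mem_filter, Finset.mem_range]
          constructor
          · rintro ⟨s, hs, h⟩
            have hne : s ≠ x := by
              rintro rfl
              exact hx₂ hs
            exact ⟨s, ⟨by omega, (hlt s (by omega)).2 hs⟩, by omega⟩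
          · rintro ⟨s, ⟨h1, h2⟩, h3⟩
            exact ⟨s, (hlt s h1).1 h2, by omega⟩
        rw [this, ncard_coe_finset, Finset.card_image_of_injOn]
        intro s hs t ht hst
        simp only [Finset.mem_coe, hA, Finset.mem_filter, Finset.mem_range] at hs ht
        have : x - s = x - t := hst
        omega
      · rintro ⟨hE, -⟩
        have h6 := hE.2 0 hE.1 x hx₁
        exact h6 ⟨0, S₂.zero_mem, by omega⟩
  have hfin : {E | E ∈ I0 S₂ ∧ (Eᶜ).ncard = k}.Finite := (I0_finite h₂).subset fun E h => h.1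
  exact absurd (hcard k) (ncard_lt_ncard hss hfin).ne

theorem colength_eq (h₁ : ((S₁ : Set ℕ)ᶜ).Finite) (h₂ : ((S₂ : Set ℕ)ᶜ).Finite)
    (f : I0 S₁ ≃ I0 S₂) (hf : ∀ I J : I0 S₁, Le S₁ I.1 J.1 ↔ Le S₂ (f I).1 (f J).1) (E : I0 S₁) :
    ((f E).1ᶜ).ncard = (E.1ᶜ).ncard := by
  apply le_antisymm
  · have := colength_le h₂ h₁ f.symm f.symm.injective
      (fun I J h => (hf _ _).2 (by simpa using h)) _ (f E) rfl
    simpa using this
  · exact colength_le h₁ h₂ f f.injective (fun I J h => (hf _ _).1 h) _ E rfl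

theorem of_card (h₁ : ((S₁ : Set ℕ)ᶜ).Finite) (h₂ : ((S₂ : Set ℕ)ᶜ).Finite)
    (hcard : ∀ k, {E | E ∈ I0 S₁ ∧ (Eᶜ).ncard = k}.ncard = {E | E ∈ I0 S₂ ∧ (Eᶜ).ncard = k}.ncard) :
    S₁ = S₂ := by
  classical
  by_contra hne
  have hex : ∃ x, ¬ (x ∈ S₁ ↔ x ∈ S₂) := by
    by_contra h
    push Not at h
    exact hne (SetLike.ext h)
  have hx := Nat.find_spec hex
  have hlt : ∀ y < Nat.find hex, (y ∈ S₁ ↔ y ∈ S₂) := fun y hy => not_not.1 (Nat.find_min hex hy)
  by_cases h1 : Nat.find hex ∈ S₁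
  · by_cases h2 : Nat.find hex ∈ S₂
    · exact hx ⟨fun _ => h2, fun _ => h1⟩
    · exact key h₁ h₂ _ h1 h2 hlt hcard
  · by_cases h2 : Nat.find hex ∈ S₂
    · exact key h₂ h₁ _ h2 h1 (fun y hy => (hlt y hy).symm) (fun k => (hcard k).symm)
    · exact hx ⟨fun h => absurd h h1, fun h => absurd h h2⟩

theorem main (h₁ : ((S₁ : Set ℕ)ᶜ).Finite) (h₂ : ((S₂ : Set ℕ)ᶜ).Finite) (f : I0 S₁ ≃ I0 S₂)
    (hf : ∀ I J : I0 S₁, Le S₁ I.1 J.1 ↔ Le S₂ (f I).1 (f J).1) : S₁ = S₂ := by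
  have hcol := colength_eq h₁ h₂ f hf
  apply of_card h₁ h₂
  intro k
  apply ncard_congr (fun E hE => (f ⟨E, hE.1⟩).1)
  · rintro E ⟨hE, hc⟩
    exact ⟨(f ⟨E, hE⟩).2, by rw [hcol]; exact hc⟩
  · rintro E F hE hF h
    exact congrArg Subtype.val (f.injective (Subtype.ext h))
  · rintro F ⟨hF, hc⟩
    refine ⟨(f.symm ⟨F, hF⟩).1, ⟨(f.symm ⟨F, hF⟩).2, ?_⟩, ?_⟩
    · rw [← hcol]
      simpa using hc
    · simp

/-! ### the ideal class monoid -/

/-- The translate `z + E`. -/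
def shift (z : ℤ) (E : Set ℤ) : Set ℤ := (fun e => z + e) '' E

/-- `E` is an ideal of `S`: a nonempty set of integers with `E + S ⊆ E` and `s + E ⊆ S` for some `s` in
`S`. -/
structure IsIdeal (S : AddSubmonoid ℕ) (E : Set ℤ) : Prop where
  nonempty : E.Nonempty
  add_mem : ∀ e ∈ E, ∀ s ∈ S, e + (s : ℤ) ∈ E
  bounded : ∃ s ∈ S, ∀ e ∈ E, ∃ t ∈ S, (s : ℤ) + e = (t : ℤ)

/-- The ideals of `S`. -/
def Ideals (S : AddSubmonoid ℕ) : Type := {E : Set ℤ // IsIdeal S E}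

theorem shift_shift (z w : ℤ) (E : Set ℤ) : shift z (shift w E) = shift (z + w) E := by
  unfold shift
  rw [image_image]
  congr 1
  ext e
  ring

theorem shift_zero (E : Set ℤ) : shift 0 E = E := by
  unfold shift
  simp

/-- Two ideals are equivalent if one is a translate of the other. -/
instance idealSetoid (S : AddSubmonoid ℕ) : Setoid (Ideals S) where
  r I J := ∃ z : ℤ, I.1 = shift z J.1
  iseqv := by
    refine ⟨fun I => ⟨0, (shift_zero _).symm⟩, ?_, ?_⟩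
    · rintro I J ⟨z, h⟩
      exact ⟨-z, by rw [h, shift_shift, neg_add_cancel, shift_zero]⟩
    · rintro I J K ⟨z, h⟩ ⟨w, h'⟩
      exact ⟨z + w, by rw [h, h', shift_shift]⟩

/-- The ideal class monoid of `S` (as a set). -/
def Cl (S : AddSubmonoid ℕ) : Type := Quotient (idealSetoid S)

/-- The divisibility order on the ideal class monoid: `b = a + c` for some class `c`. -/
def ClLe (S : AddSubmonoid ℕ) (a b : Cl S) : Prop :=
  ∃ I J K : Ideals S, a = ⟦I⟧ ∧ b = ⟦J⟧ ∧ J.1 = I.1 + K.1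

theorem isIdeal_of_mem (hS : ((S : Set ℕ)ᶜ).Finite) {E : Set ℕ} (hE : E ∈ I0 S) :
    IsIdeal S ((fun n : ℕ => (n : ℤ)) '' E) := by
  refine ⟨⟨0, 0, hE.1, rfl⟩, ?_, ?_⟩
  · rintro _ ⟨e, he, rfl⟩ s hs
    exact ⟨e + s, hE.2 e he s hs, by push_cast; ring⟩
  · obtain ⟨N, hN⟩ := hS.bddAbove
    have h : ∀ n, N < n → n ∈ S := by
      intro n hn
      by_contra h
      have := hN (show n ∈ ((S : Set ℕ)ᶜ) from h)
      omega
    refine ⟨N + 1, h _ (by omega), ?_⟩
    rintro _ ⟨e, -, rfl⟩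
    exact ⟨N + 1 + e, h _ (by omega), by push_cast; ring⟩

theorem shift_inj {E F : Set ℕ} (hE : 0 ∈ E) (hF : 0 ∈ F) {z : ℤ}
    (h : (fun n : ℕ => (n : ℤ)) '' E = shift z ((fun n : ℕ => (n : ℤ)) '' F)) : E = F := by
  have h1 : (0 : ℤ) ∈ shift z ((fun n : ℕ => (n : ℤ)) '' F) := by
    rw [← h]
    exact ⟨0, hE, rfl⟩
  have h2 : z ∈ (fun n : ℕ => (n : ℤ)) '' E := by
    rw [h]
    exact ⟨0, ⟨0, hF, rfl⟩, by simp⟩
  obtain ⟨_, ⟨a, -, rfl⟩, ha⟩ := h1
  obtain ⟨b, -, hb⟩ := h2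
  have hz : z = 0 := by
    simp only at ha hb
    omega
  rw [hz, shift_zero] at h
  exact (image_injective.2 Nat.cast_injective) h

theorem exists_norm (I : Ideals S) :
    ∃ (E : Set ℕ) (m : ℤ), E ∈ I0 S ∧ I.1 = shift m ((fun n : ℕ => (n : ℤ)) '' E) := by
  obtain ⟨s, -, hs⟩ := I.2.bounded
  obtain ⟨m, hm, hmin⟩ := Int.exists_least_of_bdd (P := fun z => z ∈ I.1)
    ⟨-s, fun z hz => by obtain ⟨t, -, ht⟩ := hs z hz; omega⟩ I.2.nonempty
  refine ⟨{n : ℕ | m + n ∈ I.1}, m, ⟨?_, ?_⟩, ?_⟩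
  · show m + ((0 : ℕ) : ℤ) ∈ I.1
    simpa using hm
  · intro e he s hs
    have := I.2.add_mem _ he s hs
    show m + ((e + s : ℕ) : ℤ) ∈ I.1
    push_cast
    rw [← add_assoc]
    exact this
  · ext z
    constructor
    · intro hz
      have h1 := hmin z hz
      obtain ⟨n, hn⟩ := Int.eq_ofNat_of_zero_le (sub_nonneg.2 h1)
      refine ⟨n, ⟨n, ?_, rfl⟩, ?_⟩
      · show m + (n : ℤ) ∈ I.1
        have : m + (n : ℤ) = z := by omega
        rw [this]
        exact hz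
      · show m + (n : ℤ) = z
        omega
    · rintro ⟨_, ⟨n, hn, rfl⟩, rfl⟩
      exact hn

/-- The class of an ideal with minimum `0`. -/
def toCl (hS : ((S : Set ℕ)ᶜ).Finite) (E : I0 S) : Cl S :=
  Quotient.mk (idealSetoid S) ⟨_, isIdeal_of_mem hS E.2⟩

theorem toCl_bij (hS : ((S : Set ℕ)ᶜ).Finite) : Function.Bijective (toCl hS) := by
  constructor
  · intro E F h
    obtain ⟨z, hz⟩ := Quotient.exact h
    exact Subtype.ext (shift_inj E.2.1 F.2.1 hz)
  · intro a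
    induction a using Quotient.inductionOn with
    | h I =>
      obtain ⟨E, m, hE, hm⟩ := exists_norm I
      refine ⟨⟨E, hE⟩, Quotient.sound ⟨-m, ?_⟩⟩
      rw [hm, shift_shift, neg_add_cancel, shift_zero]

theorem image_cast_add (E F : Set ℕ) : (fun n : ℕ => (n : ℤ)) '' (E + F) =
    (fun n : ℕ => (n : ℤ)) '' E + (fun n : ℕ => (n : ℤ)) '' F := by
  ext z
  constructor
  · rintro ⟨_, ⟨a, ha, b, hb, rfl⟩, rfl⟩
    exact ⟨a, ⟨a, ha, rfl⟩, b, ⟨b, hb, rfl⟩, by simp⟩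
  · rintro ⟨_, ⟨a, ha, rfl⟩, _, ⟨b, hb, rfl⟩, rfl⟩
    exact ⟨a + b, ⟨a, ha, b, hb, rfl⟩, by simp⟩

theorem shift_add_shift (z w : ℤ) (E F : Set ℤ) : shift z E + shift w F = shift (z + w) (E + F) := by
  ext x
  constructor
  · rintro ⟨_, ⟨a, ha, rfl⟩, _, ⟨b, hb, rfl⟩, rfl⟩
    exact ⟨a + b, ⟨a, ha, b, hb, rfl⟩, by simp only; ring⟩
  · rintro ⟨_, ⟨a, ha, b, hb, rfl⟩, rfl⟩
    exact ⟨z + a, ⟨a, ha, rfl⟩, w + b, ⟨b, hb, rfl⟩, by simp only; ring⟩

theorem toCl_le (hS : ((S : Set ℕ)ᶜ).Finite) (E F : I0 S) :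
    ClLe S (toCl hS E) (toCl hS F) ↔ Le S E.1 F.1 := by
  constructor
  · rintro ⟨I, J, K, hI, hJ, h⟩
    obtain ⟨z, hz⟩ := Quotient.exact hI
    obtain ⟨w, hw⟩ := Quotient.exact hJ
    obtain ⟨G, m, hG, hm⟩ := exists_norm K
    refine ⟨G, hG, ?_⟩
    have hz' : I.1 = shift (-z) ((fun n : ℕ => (n : ℤ)) '' E.1) := by
      have h0 : (fun n : ℕ => (n : ℤ)) '' E.1 = shift z I.1 := hz
      rw [h0, shift_shift, neg_add_cancel, shift_zero]
    have hw' : (fun n : ℕ => (n : ℤ)) '' F.1 = shift w J.1 := hw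
    rw [h, hz', hm, shift_add_shift, shift_shift, ← image_cast_add] at hw'
    refine shift_inj F.2.1 ?_ hw'
    exact ⟨0, E.2.1, 0, hG.1, by simp⟩
  · rintro ⟨K, hK, h⟩
    refine ⟨⟨_, isIdeal_of_mem hS E.2⟩, ⟨_, isIdeal_of_mem hS F.2⟩, ⟨_, isIdeal_of_mem hS hK⟩,
      rfl, rfl, ?_⟩
    show (fun n : ℕ => (n : ℤ)) '' F.1 = _
    rw [h, image_cast_add]

/-- **Theorem.** Let `S₁` and `S₂` be numerical semigroups. (1) If the ideal class monoids of `S₁` and
`S₂`, ordered by divisibility, are isomorphic as posets, then `S₁ = S₂`. (2) The same for the ideals with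
minimum `0`. (3) Every isomorphism of these posets preserves the number of gaps `|ℕ \ E|` of the ideals,
and if `S₁` and `S₂` have, for every `k`, the same number of ideals with minimum `0` and `k` gaps, then
`S₁ = S₂`. -/
theorem result (S₁ S₂ : AddSubmonoid ℕ) (h₁ : ((S₁ : Set ℕ)ᶜ).Finite) (h₂ : ((S₂ : Set ℕ)ᶜ).Finite) :
    (∀ f : Cl S₁ ≃ Cl S₂, (∀ a b, ClLe S₁ a b ↔ ClLe S₂ (f a) (f b)) → S₁ = S₂) ∧
    (∀ f : I0 S₁ ≃ I0 S₂, (∀ I J, Le S₁ I.1 J.1 ↔ Le S₂ (f I).1 (f J).1) → S₁ = S₂) ∧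
    (∀ f : I0 S₁ ≃ I0 S₂, (∀ I J, Le S₁ I.1 J.1 ↔ Le S₂ (f I).1 (f J).1) →
      ∀ E, ((f E).1ᶜ).ncard = (E.1ᶜ).ncard) ∧
    ((∀ k, {E | E ∈ I0 S₁ ∧ (Eᶜ).ncard = k}.ncard = {E | E ∈ I0 S₂ ∧ (Eᶜ).ncard = k}.ncard) →
      S₁ = S₂) := by
  refine ⟨?_, fun f hf => main h₁ h₂ f hf, fun f hf => colength_eq h₁ h₂ f hf,
    fun h => of_card h₁ h₂ h⟩
  intro f hf
  let e₁ := Equiv.ofBijective _ (toCl_bij (S := S₁) h₁)
  let e₂ := Equiv.ofBijective _ (toCl_bij (S := S₂) h₂)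
  apply main h₁ h₂ ((e₁.trans f).trans e₂.symm)
  intro I J
  rw [← toCl_le h₁ I J, hf, ← toCl_le h₂]
  have h3 : ∀ a, toCl h₂ (e₂.symm a) = a := fun a => e₂.apply_symm_apply a
  show _ ↔ ClLe S₂ (toCl h₂ (e₂.symm (f (e₁ I)))) (toCl h₂ (e₂.symm (f (e₁ J))))
  rw [h3, h3]
  rfl

end Pool.Agent.Results.MP_6e7624_al.PosetDeterminesSemigroup
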